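import Mathlib

/-! Recursive tournaments on `2 ^ n` vertices (Stockmeyer type) with a source joined to one parity
class: hypomorphic, non-isomorphic, not strongly connected. -/

set_option autoImplicit false

namespace Pool.Agent.Helper244.Dig

/-- vertices of the tournament on `2 ^ n` vertices -/
abbrev T : ℕ → Type
  | 0 => Unit
  | n + 1 => T n × Bool

instance instFin : (n : ℕ) → Fintype (T n)
  | 0 => inferInstanceAs (Fintype Unit)
  | n + 1 => @instFintypeProd (T n) Bool (instFin n) inferInstance

instance instDec : (n : ℕ) → DecidableEq (T n)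
  | 0 => inferInstanceAs (DecidableEq Unit)
  | n + 1 => @instDecidableEqProd (T n) Bool (instDec n) inferInstance

/-- parity -/
def par : (n : ℕ) → T n → Bool
  | 0, _ => false
  | _ + 1, x => x.2

/-- arcs of the tournament -/
def arc : (n : ℕ) → T n → T n → Prop
  | 0, _, _ => False
  | n + 1, x, y => (x.2 = y.2 ∧ arc n x.1 y.1) ∨
      (x.2 = false ∧ y.2 = true ∧ par n x.1 = par n y.1) ∨
      (x.2 = true ∧ y.2 = false ∧ par n x.1 ≠ par n y.1)

lemma arc_irrefl : (n : ℕ) → (x : T n) → ¬ arc n x x
  | 0, _ => fun h => h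
  | n + 1, x => by
    rintro (⟨_, h⟩ | ⟨h1, h2, _⟩ | ⟨h1, h2, _⟩)
    · exact arc_irrefl n x.1 h
    · rw [h1] at h2; exact absurd h2 (by decide)
    · rw [h1] at h2; exact absurd h2 (by decide)

/-- it is a tournament -/
lemma arc_asymm : (n : ℕ) → (x y : T n) → x ≠ y → (arc n x y ↔ ¬ arc n y x)
  | 0, _, _ => fun h => absurd rfl h
  | n + 1, (x, b), (y, c) => by
    intro hne
    unfold arc
    by_cases hbc : b = c
    · subst hbc
      have hxy : x ≠ y := fun h => hne (by rw [h])
      have := arc_asymm n x y hxy
      cases b <;> simp [this]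
    · cases b <;> cases c
      · exact absurd rfl hbc
      · simp [eq_comm]
      · simp [eq_comm]
      · exact absurd rfl hbc

/-- the deleted vertex of the partner card -/
def sg : (n : ℕ) → T n → T n
  | 0, x => x
  | n + 1, x => (sg n x.1, !x.2)

/-- the card isomorphism as a map -/
def cm : (n : ℕ) → T n → T n → T n
  | 0, _, x => x
  | n + 1, k, x => if x.2 = k.2 then (cm n k.1 x.1, !x.2) else (x.1, !x.2)

/-- its inverse -/
def cn : (n : ℕ) → T n → T n → T n
  | 0, _, x => x
  | n + 1, k, x => if x.2 = k.2 then (x.1, !x.2) else (cn n k.1 x.1, !x.2)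

lemma sg_sg : (n : ℕ) → (x : T n) → sg n (sg n x) = x
  | 0, _ => rfl
  | n + 1, (x, b) => by simp [sg, sg_sg n x]

lemma cm_ne : (n : ℕ) → (k x : T n) → x ≠ k → cm n k x ≠ sg n k
  | 0, _, _ => fun h => absurd rfl h
  | n + 1, (k, b), (x, c) => by
    intro hne h
    unfold cm sg at h
    by_cases hcb : c = b
    · subst hcb
      have hxk : x ≠ k := fun h => hne (by rw [h])
      simp only [if_true] at h
      exact cm_ne n k x hxk (Prod.ext_iff.mp h).1
    · simp only [if_neg hcb] at h
      have := (Prod.ext_iff.mp h).2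
      simp at this
      exact hcb this

lemma cn_ne : (n : ℕ) → (k x : T n) → x ≠ sg n k → cn n k x ≠ k
  | 0, _, _ => fun h => absurd rfl h
  | n + 1, (k, b), (x, c) => by
    intro hne h
    unfold cn at h
    by_cases hcb : c = b
    · simp only [if_pos hcb] at h
      have := (Prod.ext_iff.mp h).2
      subst hcb
      simp at this
    · simp only [if_neg hcb] at h
      have hc : c = !b := by cases b <;> cases c <;> simp_all
      subst hc
      have hxk : x ≠ sg n k := fun h => hne (by rw [h]; rfl)
      exact cn_ne n k x hxk (Prod.ext_iff.mp h).1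

lemma cn_cm : (n : ℕ) → (k x : T n) → x ≠ k → cn n k (cm n k x) = x
  | 0, _, _ => fun _ => rfl
  | n + 1, (k, b), (x, c) => by
    intro hne
    by_cases hcb : c = b
    · subst hcb
      have hxk : x ≠ k := fun h => hne (by rw [h])
      simp [cm, cn, cn_cm n k x hxk]
    · have hc : c = !b := by cases b <;> cases c <;> simp_all
      subst hc
      simp [cm, cn]

lemma cm_cn : (n : ℕ) → (k x : T n) → x ≠ sg n k → cm n k (cn n k x) = x
  | 0, _, _ => fun _ => rfl
  | n + 1, (k, b), (x, c) => by
    intro hne
    by_cases hcb : c = b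
    · subst hcb
      simp [cm, cn]
    · have hc : c = !b := by cases b <;> cases c <;> simp_all
      subst hc
      have hxk : x ≠ sg n k := fun h => hne (by rw [h]; rfl)
      simp [cm, cn, cm_cn n k x hxk]

lemma cm_par : (n : ℕ) → (k x : T n) → x ≠ k → par n (cm n k x) = !par n x
  | 0, _, _ => fun h => absurd rfl h
  | n + 1, (k, b), (x, c) => by
    intro _
    unfold cm par
    by_cases hcb : c = b
    · simp [hcb]
    · simp [hcb]

lemma cm_arc : (n : ℕ) → (k x y : T n) → x ≠ k → y ≠ k →
    (arc n x y ↔ arc n (cm n k x) (cm n k y))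
  | 0, _, _, _ => fun h => absurd rfl h
  | n + 1, (k, b), (x, c), (y, e) => by
    intro hx hy
    by_cases hcb : c = b
    · by_cases heb : e = b
      · subst hcb heb
        have hxk : x ≠ k := fun h => hx (by rw [h])
        have hyk : y ≠ k := fun h => hy (by rw [h])
        have := cm_arc n k x y hxk hyk
        cases e <;> simp [cm, arc, this]
      · have he : e = !b := by cases b <;> cases e <;> simp_all
        subst hcb he
        have hxk : x ≠ k := fun h => hx (by rw [h])
        have := cm_par n k x hxk
        cases c <;> simp [cm, arc, this] <;> (cases par n x <;> cases par n y <;> simp)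
    · have hc : c = !b := by cases b <;> cases c <;> simp_all
      by_cases heb : e = b
      · subst hc heb
        have hyk : y ≠ k := fun h => hy (by rw [h])
        have := cm_par n k y hyk
        cases e <;> simp [cm, arc, this] <;> (cases par n x <;> cases par n y <;> simp)
      · have he : e = !b := by cases b <;> cases e <;> simp_all
        subst hc he
        cases b <;> simp [cm, arc]

/-- the digraph with a source joined to one parity class -/
def dg (n : ℕ) (p : Bool) : Option (T n) → Option (T n) → Prop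
  | none, some y => par n y = p
  | some x, some y => arc n x y
  | _, none => False

lemma arc_auto_pow {n : ℕ} (g : Equiv.Perm (T n)) (hg : ∀ x y, arc n x y ↔ arc n (g x) (g y)) (k : ℕ) :
    ∀ x y, arc n x y ↔ arc n ((g ^ k) x) ((g ^ k) y) := by
  induction k with
  | zero => intro x y; rfl
  | succ k ih =>
    intro x y
    rw [pow_succ', Equiv.Perm.mul_apply, Equiv.Perm.mul_apply, ← hg, ← ih]

lemma par_auto_pow {n : ℕ} (g : Equiv.Perm (T n)) (hp : ∀ x, par n (g x) = !par n x) (k : ℕ) :
    ∀ x, par n ((g ^ (2 * k)) x) = par n x ∧ par n ((g ^ (2 * k + 1)) x) = !par n x := by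
  induction k with
  | zero => intro x; simp [hp]
  | succ k ih =>
    intro x
    have e1 : 2 * (k + 1) = (2 * k + 1) + 1 := by ring
    have h1 : par n ((g ^ (2 * (k + 1))) x) = par n x := by
      rw [e1, pow_succ', Equiv.Perm.mul_apply, hp, (ih x).2]; simp
    refine ⟨h1, ?_⟩
    rw [pow_succ', Equiv.Perm.mul_apply, hp, h1]

/-- no automorphism exchanges the parity classes -/
lemma no_flip {n : ℕ} (g : Equiv.Perm (T n)) (hg : ∀ x y, arc n x y ↔ arc n (g x) (g y))
    (hp : ∀ x, par n (g x) = !par n x) (x0 : T n) : False := by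
  have hpos : 0 < orderOf g := orderOf_pos g
  have hone : g ^ orderOf g = 1 := pow_orderOf_eq_one g
  obtain ⟨k, hk | hk⟩ := Nat.even_or_odd' (orderOf g)
  · have hne : g ^ k ≠ 1 := pow_ne_one_of_lt_orderOf (by omega) (by omega)
    have hsq : ∀ x, (g ^ k) ((g ^ k) x) = x := by
      intro x
      rw [← Equiv.Perm.mul_apply, ← pow_add, ← two_mul, ← hk, hone]; rfl
    apply hne
    ext x
    by_contra hx
    have hx' : x ≠ (g ^ k) x := fun h => hx h.symm
    have h1 := arc_auto_pow g hg k x ((g ^ k) x)
    rw [hsq] at h1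
    have h2 := arc_asymm n x ((g ^ k) x) hx'
    tauto
  · have := (par_auto_pow g hp k x0).2
    rw [← hk, hone] at this
    simp at this

lemma par_surj (n : ℕ) (p : Bool) : ∃ x : T (n + 1), par (n + 1) x = p := by
  have : ∀ n, Nonempty (T n) := by
    intro n
    induction n with
    | zero => exact ⟨()⟩
    | succ n ih => obtain ⟨x⟩ := ih; exact ⟨(x, true)⟩
  obtain ⟨x⟩ := this n
  exact ⟨(x, p), rfl⟩

lemma has_in (n : ℕ) (y : T (n + 2)) : ∃ x, arc (n + 2) x y := by
  obtain ⟨y, c⟩ := y
  cases c with
  | true =>
    obtain ⟨x, hx⟩ := par_surj n (par (n + 1) y)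
    exact ⟨(x, false), Or.inr (Or.inl ⟨rfl, rfl, hx⟩)⟩
  | false =>
    obtain ⟨x, hx⟩ := par_surj n (!par (n + 1) y)
    refine ⟨(x, true), Or.inr (Or.inr ⟨rfl, rfl, ?_⟩)⟩
    rw [hx]
    cases par (n + 1) y <;> simp

theorem not_iso (n : ℕ) (f : Option (T (n + 2)) ≃ Option (T (n + 2)))
    (hf : ∀ a b, dg (n + 2) true a b ↔ dg (n + 2) false (f a) (f b)) : False := by
  have hnone : f none = none := by
    rcases h : f none with _ | x
    · rfl
    · exfalso
      obtain ⟨y, hy⟩ := has_in n x
      have := (hf (f.symm (some y)) none).mpr (by rw [Equiv.apply_symm_apply, h]; exact hy)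
      cases h2 : f.symm (some y) with
      | none => rw [h2] at this; exact this
      | some z => rw [h2] at this; exact this
  have hsome : ∀ x, ∃ y, f (some x) = some y := by
    intro x
    rcases h : f (some x) with _ | y
    · exact absurd (f.injective (h.trans hnone.symm)) (by simp)
    · exact ⟨y, rfl⟩
  choose g hg using hsome
  have hinj : Function.Injective g := by
    intro x y hxy
    have : f (some x) = f (some y) := by rw [hg, hg, hxy]
    simpa using f.injective this
  have hbij : Function.Bijective g := Finite.injective_iff_bijective.mp hinj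
  let g' : Equiv.Perm (T (n + 2)) := Equiv.ofBijective g hbij
  have hg' : ∀ x, g' x = g x := fun x => rfl
  obtain ⟨x0, _⟩ := par_surj (n + 1) true
  refine no_flip g' ?_ ?_ x0
  · intro x y
    rw [hg', hg']
    have := hf (some x) (some y)
    rw [hg, hg] at this
    exact this
  · intro x
    rw [hg']
    have := hf none (some x)
    rw [hnone, hg] at this
    have h2 : par (n + 2) x = true ↔ par (n + 2) (g x) = false := this
    cases h3 : par (n + 2) x <;> cases h4 : par (n + 2) (g x) <;> simp_all

/-- card maps -/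
def cmO (n : ℕ) (k : T n) : Option (T n) → Option (T n) := Option.map (cm n k)

theorem hypo (n : ℕ) : ∃ σ : Option (T n) ≃ Option (T n), ∀ v : Option (T n),
    ∃ e : {w : Option (T n) // w ≠ v} ≃ {w : Option (T n) // w ≠ σ v},
      ∀ a b : {w : Option (T n) // w ≠ v}, dg n true a.1 b.1 ↔ dg n false (e a).1 (e b).1 := by
  refine ⟨⟨Option.map (sg n), Option.map (sg n), ?_, ?_⟩, ?_⟩
  · rintro (_ | x)
    · rfl
    · simp [sg_sg]
  · rintro (_ | x)
    · rfl
    · simp [sg_sg]
  · rintro (_ | k)
    · refine ⟨⟨fun w => ⟨w.1, w.2⟩, fun w => ⟨w.1, w.2⟩, fun w => rfl, fun w => rfl⟩, ?_⟩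
      rintro ⟨_ | x, hx⟩ ⟨_ | y, hy⟩
      · exact absurd rfl hx
      · exact absurd rfl hx
      · exact absurd rfl hy
      · exact Iff.rfl
    · refine ⟨⟨fun w => ⟨w.1.map (cm n k), ?_⟩, fun w => ⟨w.1.map (cn n k), ?_⟩, ?_, ?_⟩, ?_⟩
      · obtain ⟨_ | x, hx⟩ := w
        · simp
        · intro h
          exact cm_ne n k x (fun h => hx (by rw [h])) (by simpa using h)
      · obtain ⟨_ | x, hx⟩ := w
        · simp
        · intro h
          exact cn_ne n k x (fun h => hx (by rw [h]; rfl)) (by simpa using h)
      · rintro ⟨_ | x, hx⟩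
        · rfl
        · apply Subtype.ext
          simp [cn_cm n k x (fun h => hx (by rw [h]))]
      · rintro ⟨_ | x, hx⟩
        · rfl
        · apply Subtype.ext
          simp [cm_cn n k x (fun h => hx (by rw [h]; rfl))]
      · rintro ⟨_ | x, hx⟩ ⟨_ | y, hy⟩
        · exact Iff.rfl
        · have := cm_par n k y (fun h => hy (by rw [h]))
          change par n y = true ↔ par n (cm n k y) = false
          rw [this]
          cases par n y <;> simp
        · exact Iff.rfl
        · exact cm_arc n k x y (fun h => hx (by rw [h])) (fun h => hy (by rw [h]))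

lemma card_T : (n : ℕ) → Fintype.card (T n) = 2 ^ n
  | 0 => rfl
  | n + 1 => by
    have := card_T n
    rw [show Fintype.card (T (n + 1)) = Fintype.card (T n × Bool) from rfl, Fintype.card_prod, this]
    simp [pow_succ]


end Pool.Agent.Helper244.Dig
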